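import Pool.Agent.Q62.MS.Fin

/-! Row MP_1494ae_an: for no Morse-Smale diffeomorphism `f` of a closed manifold of dimension at
least one does the induced map `C(f)` have the shadowing property. -/

set_option autoImplicit false

open Set Filter Topology TopologicalSpace
open scoped Manifold ContDiff

universe u

namespace Pool.Agent.Results.MP_1494ae_an.NoShadowing

/-- the shadowing property of `G : Y → Y` -/
def Shadowing {Y : Type u} [PseudoMetricSpace Y] (G : Y → Y) : Prop :=
  ∀ ε : ℝ, 0 < ε → ∃ δ : ℝ, 0 < δ ∧ ∀ y : ℕ → Y, (∀ n, dist (G (y n)) (y (n + 1)) < δ) →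
    ∃ z : Y, ∀ n, dist (G^[n] z) (y n) < ε

/-- the hyperspace `C(M)` of the subcontinua of `M`, with the Hausdorff metric (the distance on
`NonemptyCompacts M` is the Hausdorff distance) -/
abbrev Subcontinua (M : Type u) [MetricSpace M] :=
  {K : NonemptyCompacts M // IsConnected (K : Set M)}

/-- the induced map `C(f) : K ↦ f(K)` -/
def inducedMap {M : Type u} [MetricSpace M] (f : M → M) (hf : Continuous f)
    (K : Subcontinua M) : Subcontinua M :=
  ⟨K.1.map f hf, by
    rw [NonemptyCompacts.coe_map]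
    exact K.2.image f hf.continuousOn⟩

/-- nonwandering points -/
def Nonwandering {M : Type u} [MetricSpace M] (f : M → M) (x : M) : Prop :=
  ∀ O ∈ 𝓝 x, ∃ n : ℕ, 1 ≤ n ∧ ∃ y ∈ O, f^[n] y ∈ O

/-- hyperbolic linear map: the space is the direct sum of two invariant subspaces, on which the
powers of `A` contract, respectively expand, at an exponential rate -/
def HyperbolicLinear {E : Type} [NormedAddCommGroup E] [NormedSpace ℝ E] (A : E →L[ℝ] E) : Prop :=
  ∃ Es Eu : Submodule ℝ E, IsCompl Es Eu ∧ (∀ v ∈ Es, A v ∈ Es) ∧ (∀ v ∈ Eu, A v ∈ Eu) ∧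
    ∃ C q : ℝ, 0 < C ∧ 0 < q ∧ q < 1 ∧ (∀ v ∈ Es, ∀ n : ℕ, ‖(A ^ n) v‖ ≤ C * q ^ n * ‖v‖) ∧
      ∀ v ∈ Eu, ∀ n : ℕ, ‖v‖ ≤ C * q ^ n * ‖(A ^ n) v‖

variable {d : ℕ} {M : Type u} [MetricSpace M] [ChartedSpace (EuclideanSpace ℝ (Fin d)) M]

/-- `x` is a hyperbolic periodic point of `f` -/
def HyperbolicPeriodic (f : M → M) (x : M) : Prop :=
  ∃ k : ℕ, 1 ≤ k ∧ f^[k] x = x ∧
    HyperbolicLinear (E := EuclideanSpace ℝ (Fin d)) (mfderiv (𝓡 d) (𝓡 d) (f^[k]) x)

/-- the nonwandering set of `f` consists of finitely many hyperbolic periodic points -/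
def FiniteHyperbolic (f : M → M) : Prop :=
  {x | Nonwandering f x}.Finite ∧ ∀ x, Nonwandering f x → HyperbolicPeriodic (d := d) f x

/-- Let `M` be a closed manifold of dimension `d ≥ 1` with a metric (compact, nonempty, of class
`C^1`, without boundary) and `f` a `C^1` diffeomorphism of `M` whose nonwandering set consists of
finitely many hyperbolic periodic points, for example a Morse-Smale diffeomorphism.  Then the
induced map `C(f)` on the subcontinua of `M` does not have the shadowing property. -/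
theorem result (d : ℕ) (hd : 1 ≤ d) (M : Type u) [MetricSpace M] [CompactSpace M] [Nonempty M]
    [ChartedSpace (EuclideanSpace ℝ (Fin d)) M] [IsManifold (𝓡 d) 1 M]
    (f : M ≃ₘ^1⟮𝓡 d, 𝓡 d⟯ M) (hf : FiniteHyperbolic (d := d) f) :
    ¬ Shadowing (inducedMap f f.continuous) := by
  have h1 : Pool.Agent.Q62.MS.FinHyp d f.toHomeomorph :=
    ⟨f.contMDiff, f.symm.contMDiff, hf.1, hf.2⟩
  exact Pool.Agent.Q62.MS.t_FIN d M f.toHomeomorph hd h1

end Pool.Agent.Results.MP_1494ae_an.NoShadowing
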